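import Pool.Agent.Q170.UZ.StmN
import Pool.Agent.TH861.GL3.Count

set_option autoImplicit false
set_option linter.unusedSectionVars false

/-! Job PRS of project UZ: the primes with an unramified place of degree one. -/

open IsDedekindDomain NumberField Pool.Agent.Q170.UZ Pool.Agent.H921R2.TatePole

noncomputable section

namespace Pool.Agent.Q239.UZ

variable {K : Type} [Field K] [NumberField K]

lemma nm_card (v : HeightOneSpectrum (𝓞 K)) : Nat.card (𝓞 K ⧸ v.asIdeal) = nm v := by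
  unfold nm
  rw [Ideal.absNorm_apply, Submodule.cardQuot_apply]

/-- the prime below a place -/
def pb (v : HeightOneSpectrum (𝓞 K)) : ℕ := (nm v).minFac

lemma pb_spec (v : HeightOneSpectrum (𝓞 K)) : (pb v).Prime ∧ ((pb v : ℕ) : 𝓞 K) ∈ v.asIdeal ∧
    ∃ f, 0 < f ∧ nm v = pb v ^ f := by
  have hmax : v.asIdeal.IsMaximal := v.isMaximal
  let _ : Field (𝓞 K ⧸ v.asIdeal) := Ideal.Quotient.field v.asIdeal
  have h0 := nm_ne_zero v
  have hfin : Finite (𝓞 K ⧸ v.asIdeal) := Nat.finite_of_card_ne_zero (by rw [nm_card]; exact h0)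
  let _ : Fintype (𝓞 K ⧸ v.asIdeal) := Fintype.ofFinite _
  have h1 : IsPrimePow (Fintype.card (𝓞 K ⧸ v.asIdeal)) := FiniteField.isPrimePow_card _
  rw [← Nat.card_eq_fintype_card, nm_card] at h1
  have h2 := h1.minFac_pow_factorization_eq
  have h3 : (pb v).Prime := Nat.minFac_prime (by have := two_le_nm v; omega)
  refine ⟨h3, ?_, (nm v).factorization (nm v).minFac, ?_, h2.symm⟩
  · have h4 : ((nm v : ℕ) : 𝓞 K) ∈ v.asIdeal := Ideal.absNorm_mem v.asIdeal
    rw [← h2, Nat.cast_pow] at h4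
    exact v.isPrime.mem_of_pow_mem _ h4
  · by_contra hcon
    have h5 : (nm v).factorization (nm v).minFac = 0 := by omega
    rw [h5, pow_zero] at h2
    have := two_le_nm v
    omega

/-- the places above a prime -/
lemma card_above (F : Finset (HeightOneSpectrum (𝓞 K))) {p : ℕ} (hp : p.Prime)
    (hF : ∀ v ∈ F, (p : 𝓞 K) ∈ v.asIdeal) : F.card ≤ Module.finrank ℚ K := by
  classical
  set P : Ideal ℤ := Ideal.span {(p : ℤ)} with hP
  have hP0 : P ≠ ⊥ := by
    rw [hP, Ne, Ideal.span_singleton_eq_bot]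
    exact_mod_cast hp.ne_zero
  have hprime : P.IsPrime := by
    rw [hP, Ideal.span_singleton_prime (by exact_mod_cast hp.ne_zero)]
    exact Nat.prime_iff_prime_int.mp hp
  have hmax : P.IsMaximal := hprime.isMaximal hP0
  have hle := Ideal.card_primesOverFinset_le_finrank (𝓞 K) ℚ K hP0
  refine le_trans (Finset.card_le_card_of_injOn (fun v => v.asIdeal) ?_ ?_) hle
  · intro v hv
    rw [Finset.mem_coe, IsDedekindDomain.mem_primesOverFinset_iff hP0]
    refine ⟨v.isPrime, ⟨?_⟩⟩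
    have h1 : P ≤ v.asIdeal.under ℤ := by
      rw [hP, Ideal.span_singleton_le_iff_mem, Ideal.mem_under]
      simpa using hF v hv
    refine hmax.eq_of_le ?_ h1
    exact (v.isPrime.under ℤ).ne_top
  · intro v _ w _ h
    exact HeightOneSpectrum.ext h

/-- summation over the primes below -/
lemma sum_below (F : Finset (HeightOneSpectrum (𝓞 K))) (g : ℕ → ℝ) (hg : ∀ n, 0 ≤ g n) :
    ∑ v ∈ F, g (pb v) ≤ Module.finrank ℚ K * ∑ p ∈ F.image pb, g p := by
  classical
  rw [← Finset.sum_fiberwise_of_maps_to (s := F) (t := F.image pb) (g := pb)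
    (fun v hv => Finset.mem_image_of_mem _ hv), Finset.mul_sum]
  refine Finset.sum_le_sum fun p hp => ?_
  obtain ⟨v₀, hv₀, rfl⟩ := Finset.mem_image.mp hp
  have h1 : ∀ v ∈ F.filter (fun v => pb v = pb v₀), g (pb v) = g (pb v₀) := fun v hv => by
    rw [(Finset.mem_filter.mp hv).2]
  rw [Finset.sum_congr rfl h1, Finset.sum_const, nsmul_eq_mul]
  refine mul_le_mul_of_nonneg_right ?_ (hg _)
  exact_mod_cast card_above _ (pb_spec v₀).1 (fun v hv => by
    rw [← (Finset.mem_filter.mp hv).2]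
    exact (pb_spec v).2.1)

/-- finitely many ramified places -/
lemma ram_finite : {v : HeightOneSpectrum (𝓞 K) | ((pb v : ℕ) : 𝓞 K) ∈ v.asIdeal ^ 2}.Finite := by
  have h1 : {v : HeightOneSpectrum (𝓞 K) | v.asIdeal ∣ differentIdeal ℤ (𝓞 K)}.Finite := by
    have := Ideal.finite_factors (R := 𝓞 K) (I := differentIdeal ℤ (𝓞 K)) differentIdeal_ne_bot
    exact this
  refine h1.subset ?_
  intro v hv
  have hp := (pb_spec v).1
  set P : Ideal ℤ := Ideal.span {((pb v : ℕ) : ℤ)} with hP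
  have hP0 : P ≠ ⊥ := by
    rw [hP, Ne, Ideal.span_singleton_eq_bot]
    exact_mod_cast hp.ne_zero
  have hprime : P.IsPrime := by
    rw [hP, Ideal.span_singleton_prime (by exact_mod_cast hp.ne_zero)]
    exact Nat.prime_iff_prime_int.mp hp
  have hmax : P.IsMaximal := hprime.isMaximal hP0
  have h2 := pow_sub_one_dvd_differentIdeal ℤ (p := P) v.asIdeal 2 hP0 (by
    rw [Ideal.dvd_iff_le, hP, Ideal.map_span, Set.image_singleton, Ideal.span_singleton_le_iff_mem]
    simpa using hv)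
  simpa using h2

theorem t_PRS : S_PRS := by
  classical
  intro K _ _ Q c
  by_contra hcon
  push Not at hcon
  apply Pool.Agent.TH861.GL3.not_summable_inv K
  have hfin : {v : HeightOneSpectrum (𝓞 K) | nm v ≤ Q}.Finite :=
    Pool.Agent.TH861.GL3.finite_nm_le K Q
  set Bad : Finset (HeightOneSpectrum (𝓞 K)) := hfin.toFinset ∪ ram_finite.toFinset with hBad
  set n : ℝ := (Module.finrank ℚ K : ℝ) with hn
  have hn0 : 0 ≤ n := by rw [hn]; positivity
  have hsum : Summable (fun m : ℕ => 1 / (m : ℝ) ^ 2) :=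
    Real.summable_one_div_nat_pow.mpr (by norm_num)
  refine summable_of_sum_le (c := ∑ v ∈ Bad, (nm v : ℝ) ^ (-(1 : ℝ)) +
    (n * ∑' m : ℕ, 1 / (m : ℝ) ^ 2 + n * |c|)) (fun v => by positivity) ?_
  intro F
  have hsplit : ∑ v ∈ F, (nm v : ℝ) ^ (-(1 : ℝ)) ≤ ∑ v ∈ Bad, (nm v : ℝ) ^ (-(1 : ℝ)) +
      ∑ v ∈ F.filter (fun v => v ∉ Bad), (nm v : ℝ) ^ (-(1 : ℝ)) := by
    rw [← Finset.sum_filter_add_sum_filter_not F (fun v => v ∈ Bad)]
    refine add_le_add ?_ le_rfl
    refine Finset.sum_le_sum_of_subset_of_nonneg ?_ (fun v _ _ => by positivity)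
    intro v hv
    exact (Finset.mem_filter.mp hv).2
  refine hsplit.trans (add_le_add le_rfl ?_)
  set F₀ := F.filter (fun v => v ∉ Bad) with hF₀
  rw [← Finset.sum_filter_add_sum_filter_not F₀ (fun v => pb v ^ 2 ≤ nm v)]
  refine add_le_add ?_ ?_
  · have h1 : ∑ v ∈ F₀.filter (fun v => pb v ^ 2 ≤ nm v), (nm v : ℝ) ^ (-(1 : ℝ)) ≤
        ∑ v ∈ F₀.filter (fun v => pb v ^ 2 ≤ nm v), 1 / (pb v : ℝ) ^ 2 := by
      refine Finset.sum_le_sum fun v hv => ?_
      have h2 := (Finset.mem_filter.mp hv).2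
      have h3 : (0 : ℝ) < pb v := by exact_mod_cast (pb_spec v).1.pos
      rw [Real.rpow_neg_one, ← one_div]
      exact one_div_le_one_div_of_le (by positivity) (by exact_mod_cast h2)
    refine h1.trans ((sum_below _ (fun m => 1 / (m : ℝ) ^ 2) (fun m => by positivity)).trans ?_)
    refine mul_le_mul_of_nonneg_left ?_ hn0
    exact hsum.sum_le_tsum _ (fun m _ => by positivity)
  · set F₁ := F₀.filter (fun v => ¬ pb v ^ 2 ≤ nm v) with hF₁
    have hgood : ∀ v ∈ F₁, nm v = pb v ∧ Q < nm v ∧ ((pb v : ℕ) : 𝓞 K) ∉ v.asIdeal ^ 2 := by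
      intro v hv
      obtain ⟨hv1, hv2⟩ := Finset.mem_filter.mp hv
      have hv3 := (Finset.mem_filter.mp hv1).2
      rw [hBad, Finset.mem_union, not_or, Set.Finite.mem_toFinset, Set.Finite.mem_toFinset] at hv3
      obtain ⟨f, hf, hnm⟩ := (pb_spec v).2.2
      have hf1 : f = 1 := by
        by_contra hne
        apply hv2
        rw [hnm]
        exact Nat.pow_le_pow_right (pb_spec v).1.pos (by omega)
      rw [hf1, pow_one] at hnm
      refine ⟨hnm, ?_, hv3.2⟩
      by_contra hle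
      exact hv3.1 (by simpa using hle)
    have h1 : ∑ v ∈ F₁, (nm v : ℝ) ^ (-(1 : ℝ)) = ∑ v ∈ F₁, (1 / (pb v : ℝ)) := by
      refine Finset.sum_congr rfl fun v hv => ?_
      rw [Real.rpow_neg_one, (hgood v hv).1, one_div]
    rw [h1]
    refine (sum_below _ (fun m => 1 / (m : ℝ)) (fun m => by positivity)).trans ?_
    refine mul_le_mul_of_nonneg_left ?_ hn0
    refine le_trans (le_of_lt (hcon (F₁.image pb) ?_)) (le_abs_self c)
    intro p hp
    obtain ⟨v, hv, rfl⟩ := Finset.mem_image.mp hp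
    obtain ⟨e1, e2, e3⟩ := hgood v hv
    refine ⟨(pb_spec v).1, by rw [← e1]; exact e2, v, (pb_spec v).2.1, e3, ?_⟩
    rw [nm_card, e1]

end Pool.Agent.Q239.UZ
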