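import Pool.Agent.Q170.UZ.StmN

set_option autoImplicit false
set_option linter.unusedSectionVars false

/-! Job PTS of project UZ: points modulo `p` of a hypersurface of degree one in one coordinate. -/

open IsDedekindDomain NumberField Pool.Agent.Q170.UZ

noncomputable section

namespace Pool.Agent.Q239.UZ

section itg

variable {K : Type} [Field K] [NumberField K]

/-- denominators -/
lemma exists_int {σ : Type} (f : MvPolynomial σ K) : ∃ (b : 𝓞 K) (f' : MvPolynomial σ (𝓞 K)),
    b ≠ 0 ∧ MvPolynomial.map (algebraMap (𝓞 K) K) f' = MvPolynomial.C (algebraMap (𝓞 K) K b) * f := by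
  induction f using MvPolynomial.induction_on with
  | C a =>
    obtain ⟨x, y, hy, hxy⟩ := IsFractionRing.div_surjective (A := 𝓞 K) a
    have hy0 : y ≠ 0 := nonZeroDivisors.ne_zero hy
    refine ⟨y, MvPolynomial.C x, hy0, ?_⟩
    rw [MvPolynomial.map_C, ← MvPolynomial.C_mul, ← hxy]
    have h1 : algebraMap (𝓞 K) K y ≠ 0 := by
      rw [Ne, FaithfulSMul.algebraMap_eq_zero_iff]
      exact hy0
    congr 1
    field_simp
  | add f g hf hg =>
    obtain ⟨b, f', hb, hf'⟩ := hf
    obtain ⟨c, g', hc, hg'⟩ := hg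
    refine ⟨b * c, MvPolynomial.C c * f' + MvPolynomial.C b * g', mul_ne_zero hb hc, ?_⟩
    rw [map_add, map_mul, map_mul, hf', hg', MvPolynomial.map_C, MvPolynomial.map_C, map_mul,
      MvPolynomial.C_mul]
    ring
  | mul_X f i hf =>
    obtain ⟨b, f', hb, hf'⟩ := hf
    refine ⟨b, f' * MvPolynomial.X i, hb, ?_⟩
    rw [map_mul, hf', MvPolynomial.map_X]
    ring

lemma int_mul {σ : Type} {f : MvPolynomial σ K} {b : 𝓞 K}
    (h : ∃ f' : MvPolynomial σ (𝓞 K), MvPolynomial.map (algebraMap (𝓞 K) K) f' =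
      MvPolynomial.C (algebraMap (𝓞 K) K b) * f) (c : 𝓞 K) :
    ∃ f' : MvPolynomial σ (𝓞 K), MvPolynomial.map (algebraMap (𝓞 K) K) f' =
      MvPolynomial.C (algebraMap (𝓞 K) K (b * c)) * f := by
  obtain ⟨f', hf'⟩ := h
  refine ⟨MvPolynomial.C c * f', ?_⟩
  rw [map_mul, hf', MvPolynomial.map_C, map_mul, MvPolynomial.C_mul]
  ring

lemma map_inj {σ : Type} : Function.Injective (MvPolynomial.map (σ := σ) (algebraMap (𝓞 K) K)) :=
  MvPolynomial.map_injective _ (FaithfulSMul.algebraMap_injective (𝓞 K) K)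

/-- large primes do not divide a given element -/
lemma not_mem_large {x : 𝓞 K} (hx : x ≠ 0) {p : ℕ} (hp : p.Prime)
    (hQ : Ideal.absNorm (Ideal.span {x}) < p) {v : HeightOneSpectrum (𝓞 K)}
    (hv : (p : 𝓞 K) ∈ v.asIdeal) : x ∉ v.asIdeal := by
  intro hxv
  set n := Ideal.absNorm (Ideal.span {x}) with hn
  have hn0 : n ≠ 0 := by
    rw [hn, Ne, Ideal.absNorm_eq_zero_iff, Ideal.span_singleton_eq_bot]
    exact hx
  have h1 : (n : 𝓞 K) ∈ v.asIdeal := by
    have h2 := Ideal.absNorm_mem (Ideal.span {x})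
    exact (Ideal.span_le.mpr (by simpa using hxv)) h2
  have h2 : ¬ p ∣ n := fun h => absurd (Nat.le_of_dvd (Nat.pos_of_ne_zero hn0) h) (by omega)
  have h3 : IsCoprime (n : ℤ) (p : ℤ) := by
    rw [Nat.isCoprime_iff_coprime]
    exact ((Nat.Prime.coprime_iff_not_dvd hp).mpr h2).symm
  obtain ⟨a, b, hab⟩ := h3
  apply v.isPrime.ne_top
  rw [Ideal.eq_top_iff_one]
  have h4 : ((a : 𝓞 K) * n + b * p) = 1 := by exact_mod_cast congrArg (Int.cast : ℤ → 𝓞 K) hab
  rw [← h4]
  exact Ideal.add_mem _ (Ideal.mul_mem_left _ _ h1) (Ideal.mul_mem_left _ _ hv)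

end itg

/-- Schwartz-Zippel over a field with `p` elements -/
lemma sz_half {k : Type} [Field k] [Fintype k] {σ : Type} [Fintype σ] {p n : ℕ}
    (hk : Fintype.card k = p) (hσ : Fintype.card σ = n) {f : MvPolynomial σ k} (hf : f ≠ 0)
    (hd : 2 * f.totalDegree ≤ p) (hp : 0 < p) : ∃ W : Finset (σ → k), p ^ n ≤ 2 * W.card ∧
      ∀ x ∈ W, MvPolynomial.eval x f ≠ 0 := by
  classical
  let e : σ ≃ Fin n := Fintype.equivFinOfCardEq hσ
  set g : MvPolynomial (Fin n) k := MvPolynomial.rename e f with hg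
  have hg0 : g ≠ 0 := by
    rw [hg, Ne, ← map_zero (MvPolynomial.rename e), (MvPolynomial.rename_injective e e.injective).eq_iff]
    exact hf
  have h1 := MvPolynomial.schwartz_zippel_totalDegree hg0 (Finset.univ : Finset k)
  rw [Finset.card_univ, hk] at h1
  set Z := (Fintype.piFinset fun _ : Fin n => (Finset.univ : Finset k)).filter
    (fun f => MvPolynomial.eval f g = 0) with hZ
  have hZ' : Z = Finset.univ.filter (fun f => MvPolynomial.eval f g = 0) := by
    rw [hZ, Fintype.piFinset_univ]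
  have hdeg : g.totalDegree ≤ f.totalDegree := MvPolynomial.totalDegree_rename_le _ _
  have h2 : 2 * Z.card ≤ p ^ n := by
    have hp' : (0 : ℚ≥0) < p := by exact_mod_cast hp
    have h3 : ((Z.card : ℚ≥0)) ≤ (g.totalDegree / p) * (p : ℚ≥0) ^ n := by
      rwa [div_le_iff₀ (by positivity)] at h1
    have h4 : (g.totalDegree : ℚ≥0) / p ≤ 1 / 2 := by
      rw [div_le_div_iff₀ hp' (by norm_num), one_mul]
      have : g.totalDegree * 2 ≤ p := by omega
      exact_mod_cast this
    have h5 : (2 : ℚ≥0) * Z.card ≤ (p : ℚ≥0) ^ n := by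
      calc (2 : ℚ≥0) * Z.card ≤ 2 * ((1 / 2) * (p : ℚ≥0) ^ n) := by
            apply mul_le_mul_of_nonneg_left _ (by norm_num)
            exact h3.trans (mul_le_mul_of_nonneg_right h4 (by positivity))
        _ = (p : ℚ≥0) ^ n := by rw [← mul_assoc]; norm_num
    exact_mod_cast h5
  refine ⟨Finset.univ.filter (fun x : σ → k => MvPolynomial.eval x f ≠ 0), ?_, fun x hx =>
    (Finset.mem_filter.mp hx).2⟩
  have h3 : (Finset.univ.filter (fun x : σ → k => MvPolynomial.eval x f = 0)).card = Z.card := by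
    rw [hZ']
    refine Finset.card_equiv (Equiv.arrowCongr e (Equiv.refl k)) ?_
    intro x
    simp only [Finset.mem_filter, Finset.mem_univ, true_and]
    rw [hg, MvPolynomial.eval_rename]
    have e1 : (Equiv.arrowCongr e (Equiv.refl k)) x ∘ e = x := by
      funext j
      simp
    rw [e1]
  have h4 := Finset.card_filter_add_card_filter_not (s := (Finset.univ : Finset (σ → k)))
    (fun x => MvPolynomial.eval x f = 0)
  rw [Finset.card_univ, Fintype.card_fun, hk, hσ, h3] at h4
  have h5 : Z.card + (Finset.univ.filter (fun x : σ → k => MvPolynomial.eval x f ≠ 0)).card =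
      p ^ n := h4
  omega

theorem t_PTS : S_PTS := by
  classical
  intro K _ _ r l A B R P E U V hA hR hP hUV
  obtain ⟨bA, hA'⟩ := exists_int A
  obtain ⟨bB, hB'⟩ := exists_int B
  obtain ⟨bR, hR'⟩ := exists_int R
  obtain ⟨bE, hE'⟩ := exists_int E
  obtain ⟨bU, hU'⟩ := exists_int U
  obtain ⟨bV, hV'⟩ := exists_int V
  obtain ⟨fA, hbA, hfA⟩ := hA'
  obtain ⟨fB, hbB, hfB⟩ := hB'
  obtain ⟨fR, hbR, hfR⟩ := hR'
  obtain ⟨fE, hbE, hfE⟩ := hE'
  obtain ⟨fU, hbU, hfU⟩ := hU'
  obtain ⟨fV, hbV, hfV⟩ := hV'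
  set b : 𝓞 K := bA * bB * bR * bE * bU * bV with hb
  have hb0 : b ≠ 0 := mul_ne_zero (mul_ne_zero (mul_ne_zero (mul_ne_zero (mul_ne_zero hbA hbB) hbR)
    hbE) hbU) hbV
  obtain ⟨A', hA'⟩ := int_mul ⟨fA, hfA⟩ (bB * bR * bE * bU * bV)
  obtain ⟨B', hB'⟩ := int_mul ⟨fB, hfB⟩ (bA * bR * bE * bU * bV)
  obtain ⟨R', hR'⟩ := int_mul ⟨fR, hfR⟩ (bA * bB * bE * bU * bV)
  obtain ⟨E', hE'⟩ := int_mul ⟨fE, hfE⟩ (bA * bB * bR * bU * bV)
  obtain ⟨U', hU'⟩ := int_mul ⟨fU, hfU⟩ (bA * bB * bR * bE * bV)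
  obtain ⟨V', hV'⟩ := int_mul ⟨fV, hfV⟩ (bA * bB * bR * bE * bU)
  rw [show bA * (bB * bR * bE * bU * bV) = b by rw [hb]; ring] at hA'
  rw [show bB * (bA * bR * bE * bU * bV) = b by rw [hb]; ring] at hB'
  rw [show bR * (bA * bB * bE * bU * bV) = b by rw [hb]; ring] at hR'
  rw [show bE * (bA * bB * bR * bU * bV) = b by rw [hb]; ring] at hE'
  rw [show bU * (bA * bB * bR * bE * bV) = b by rw [hb]; ring] at hU'
  rw [show bV * (bA * bB * bR * bE * bU) = b by rw [hb]; ring] at hV'
  set β : K := algebraMap (𝓞 K) K b with hβ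
  have hβ0 : β ≠ 0 := by
    rw [hβ, Ne, FaithfulSMul.algebraMap_eq_zero_iff]
    exact hb0
  have hCβ : ∀ σ : Type, (MvPolynomial.C β : MvPolynomial σ K) ≠ 0 := fun σ => by
    rw [Ne, MvPolynomial.C_eq_zero]
    exact hβ0
  have hA0 : A' ≠ 0 := by
    rintro rfl
    rw [map_zero] at hA'
    exact mul_ne_zero (hCβ _) hA hA'.symm
  have hR0 : R' ≠ 0 := by
    rintro rfl
    rw [map_zero] at hR'
    exact mul_ne_zero (hCβ _) hR hR'.symm
  set P' : MvPolynomial (Fin r) (𝓞 K) :=
    MvPolynomial.rename Subtype.val A' * MvPolynomial.X l + MvPolynomial.rename Subtype.val B' with hP'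
  have hPP : MvPolynomial.map (algebraMap (𝓞 K) K) P' = MvPolynomial.C β * P := by
    rw [hP', map_add, map_mul, MvPolynomial.map_rename, MvPolynomial.map_rename, hA', hB',
      MvPolynomial.map_X, hP, map_mul, map_mul, MvPolynomial.rename_C]
    ring
  have hUV' : U' * P' + V' * E' = MvPolynomial.C b * MvPolynomial.rename Subtype.val R' := by
    apply map_inj
    rw [map_add, map_mul, map_mul, map_mul, hU', hPP, hV', hE', MvPolynomial.map_C, ← hβ,
      MvPolynomial.map_rename, hR', map_mul (MvPolynomial.rename _), MvPolynomial.rename_C, ← hUV]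
    ring
  obtain ⟨mA, hmA⟩ : ∃ m, A'.coeff m ≠ 0 := by
    by_contra hcon
    push Not at hcon
    exact hA0 (MvPolynomial.ext _ _ (fun m => by rw [hcon m, MvPolynomial.coeff_zero]))
  obtain ⟨mR, hmR⟩ : ∃ m, R'.coeff m ≠ 0 := by
    by_contra hcon
    push Not at hcon
    exact hR0 (MvPolynomial.ext _ _ (fun m => by rw [hcon m, MvPolynomial.coeff_zero]))
  refine ⟨Ideal.absNorm (Ideal.span {b}) + Ideal.absNorm (Ideal.span {A'.coeff mA}) +
    Ideal.absNorm (Ideal.span {R'.coeff mR}) + 2 * (A'.totalDegree + R'.totalDegree), ?_⟩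
  intro p hp hQ v hpv hcard
  have hFp : Fact p.Prime := ⟨hp⟩
  have hbv : b ∉ v.asIdeal := not_mem_large hb0 hp (by omega) hpv
  have hav : A'.coeff mA ∉ v.asIdeal := not_mem_large hmA hp (by omega) hpv
  have hrv : R'.coeff mR ∉ v.asIdeal := not_mem_large hmR hp (by omega) hpv
  have hmax : v.asIdeal.IsMaximal := v.isMaximal
  let k := 𝓞 K ⧸ v.asIdeal
  let _ : Field k := Ideal.Quotient.field v.asIdeal
  have hfin : Finite k := Nat.finite_of_card_ne_zero (by rw [hcard]; exact hp.ne_zero)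
  let _ : Fintype k := Fintype.ofFinite k
  have hkc : Fintype.card k = p := by rw [← Nat.card_eq_fintype_card]; exact hcard
  have : CharP k p := charP_of_card_eq_prime hkc
  set q : 𝓞 K →+* k := Ideal.Quotient.mk v.asIdeal with hq
  have hq0 : ∀ x, q x = 0 ↔ x ∈ v.asIdeal := fun x => Ideal.Quotient.eq_zero_iff_mem
  let c : ZMod p →+* k := ZMod.castHom (dvd_refl p) k
  have hcb : Function.Bijective c := by
    rw [Fintype.bijective_iff_injective_and_card]
    exact ⟨c.injective, by rw [ZMod.card, hkc]⟩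
  let ce : ZMod p ≃ k := Equiv.ofBijective c hcb
  set Ab := MvPolynomial.map q A' with hAb
  set Bb := MvPolynomial.map q B' with hBb
  set Rb := MvPolynomial.map q R' with hRb
  set Pb := MvPolynomial.map q P' with hPb
  set Eb := MvPolynomial.map q E' with hEb
  set Ub := MvPolynomial.map q U' with hUb
  set Vb := MvPolynomial.map q V' with hVb
  have hAb0 : Ab ≠ 0 := by
    intro h
    have h1 := congrArg (MvPolynomial.coeff mA) h
    rw [hAb, MvPolynomial.coeff_map, MvPolynomial.coeff_zero, hq0] at h1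
    exact hav h1
  have hRb0 : Rb ≠ 0 := by
    intro h
    have h1 := congrArg (MvPolynomial.coeff mR) h
    rw [hRb, MvPolynomial.coeff_map, MvPolynomial.coeff_zero, hq0] at h1
    exact hrv h1
  have hPb' : Pb = MvPolynomial.rename Subtype.val Ab * MvPolynomial.X l +
      MvPolynomial.rename Subtype.val Bb := by
    rw [hPb, hP', map_add, map_mul, MvPolynomial.map_rename, MvPolynomial.map_rename,
      MvPolynomial.map_X]
  have hUVb : Ub * Pb + Vb * Eb = MvPolynomial.C (q b) * MvPolynomial.rename Subtype.val Rb := by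
    have h1 := congrArg (MvPolynomial.map q) hUV'
    rw [map_add, map_mul, map_mul, map_mul, MvPolynomial.map_C, MvPolynomial.map_rename] at h1
    exact h1
  have hdle : ∀ f : MvPolynomial {i : Fin r // i ≠ l} (𝓞 K),
      (MvPolynomial.map q f).totalDegree ≤ f.totalDegree := by
    intro f
    unfold MvPolynomial.totalDegree
    exact Finset.sup_mono (MvPolynomial.support_map_subset _ _)
  have hdeg : 2 * (Ab * Rb).totalDegree ≤ p := by
    have h1 := MvPolynomial.totalDegree_mul Ab Rb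
    have h2 : Ab.totalDegree ≤ A'.totalDegree := hdle A'
    have h3 : Rb.totalDegree ≤ R'.totalDegree := hdle R'
    omega
  have hcσ : Fintype.card {i : Fin r // i ≠ l} = r - 1 := by
    rw [Fintype.card_subtype_compl, Fintype.card_fin, Fintype.card_subtype_eq]
  obtain ⟨W, hW1, hW2⟩ := sz_half hkc hcσ (mul_ne_zero hAb0 hRb0) hdeg hp.pos
  refine ⟨Finset.univ.filter (fun x : Fin r → ZMod p => MvPolynomial.eval (fun j => c (x j)) Pb = 0 ∧
    MvPolynomial.eval (fun j => c (x j)) Eb ≠ 0), ?_, ?_⟩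
  · refine hW1.trans (Nat.mul_le_mul_left 2 ?_)
    let z : ({i : Fin r // i ≠ l} → k) → Fin r → k := fun x j =>
      if h : j ≠ l then x ⟨j, h⟩ else - MvPolynomial.eval x Bb / MvPolynomial.eval x Ab
    have hz1 : ∀ x, z x ∘ (Subtype.val : {i : Fin r // i ≠ l} → Fin r) = x := by
      intro x
      funext j
      change (if h : j.1 ≠ l then x ⟨j.1, h⟩ else _) = x j
      rw [dif_pos j.2]
    have hz2 : ∀ x, z x l = - MvPolynomial.eval x Bb / MvPolynomial.eval x Ab := by
      intro x
      change (if h : l ≠ l then x ⟨l, h⟩ else _) = _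
      rw [dif_neg (by simp)]
    refine Finset.card_le_card_of_injOn (fun x => fun j => ce.symm (z x j)) ?_ ?_
    · intro x hx
      have h1 := hW2 x hx
      rw [map_mul] at h1
      have hAx : MvPolynomial.eval x Ab ≠ 0 := left_ne_zero_of_mul h1
      have hRx : MvPolynomial.eval x Rb ≠ 0 := right_ne_zero_of_mul h1
      have hcz : (fun j => c (ce.symm (z x j))) = z x := by
        funext j
        exact ce.apply_symm_apply (z x j)
      rw [Finset.mem_coe, Finset.mem_filter]
      refine ⟨Finset.mem_univ _, ?_⟩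
      simp only
      rw [hcz]
      have h2 : MvPolynomial.eval (z x) Pb = 0 := by
        rw [hPb', map_add, map_mul, MvPolynomial.eval_rename, MvPolynomial.eval_rename, hz1,
          MvPolynomial.eval_X, hz2]
        field_simp
        ring
      refine ⟨h2, ?_⟩
      intro h3
      have h4 := congrArg (MvPolynomial.eval (z x)) hUVb
      rw [map_add, map_mul, map_mul, map_mul, h2, h3, mul_zero, mul_zero, add_zero,
        MvPolynomial.eval_C, MvPolynomial.eval_rename, hz1] at h4
      have h5 : q b ≠ 0 := fun h => hbv ((hq0 b).mp h)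
      exact mul_ne_zero h5 hRx h4.symm
    · intro x _ x' _ hxx
      rw [← hz1 x, ← hz1 x']
      funext j
      exact ce.symm.injective (congrFun hxx j.1)
  · intro t ht
    obtain ⟨-, h1, h2⟩ := Finset.mem_filter.mp ht
    have hcc : (fun j => c ((t j : ℤ) : ZMod p)) = fun j => q ((t j : ℤ) : 𝓞 K) := by
      funext j
      rw [map_intCast, map_intCast]
    rw [hcc] at h1 h2
    have hev : ∀ f : MvPolynomial (Fin r) (𝓞 K),
        MvPolynomial.eval (fun j => q ((t j : ℤ) : 𝓞 K)) (MvPolynomial.map q f) =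
          q (MvPolynomial.eval (fun j => ((t j : ℤ) : 𝓞 K)) f) := by
      intro f
      rw [MvPolynomial.eval_map]
      exact MvPolynomial.eval₂_comp_left q (RingHom.id _) (fun j => ((t j : ℤ) : 𝓞 K)) f |>.symm
    have hevK : ∀ f : MvPolynomial (Fin r) (𝓞 K),
        algebraMap (𝓞 K) K (MvPolynomial.eval (fun j => ((t j : ℤ) : 𝓞 K)) f) =
          MvPolynomial.eval (fun j => ((t j : ℤ) : K)) (MvPolynomial.map (algebraMap (𝓞 K) K) f) := by
      intro f
      rw [MvPolynomial.eval_map]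
      have := MvPolynomial.eval₂_comp_left (algebraMap (𝓞 K) K) (RingHom.id _)
        (fun j => ((t j : ℤ) : 𝓞 K)) f
      have e1 : (algebraMap (𝓞 K) K) ∘ (fun j => ((t j : ℤ) : 𝓞 K)) = fun j => ((t j : ℤ) : K) := by
        funext j
        simp
      rw [e1] at this
      exact this
    rw [hPb, hev, hq0] at h1
    rw [hEb, hev, Ne, hq0] at h2
    have hvb : v.valuation K β = 1 := (HeightOneSpectrum.valuation_eq_one_iff_notMem v).mpr hbv
    constructor
    · have h3 : v.valuation K (algebraMap (𝓞 K) K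
          (MvPolynomial.eval (fun j => ((t j : ℤ) : 𝓞 K)) P')) < 1 :=
        (HeightOneSpectrum.valuation_lt_one_iff_mem v _).mpr h1
      rw [hevK, hPP, map_mul, map_mul, MvPolynomial.eval_C, hvb, one_mul] at h3
      exact h3
    · have h3 : v.valuation K (algebraMap (𝓞 K) K
          (MvPolynomial.eval (fun j => ((t j : ℤ) : 𝓞 K)) E')) = 1 :=
        (HeightOneSpectrum.valuation_eq_one_iff_notMem v).mpr h2
      rw [hevK, hE', map_mul, map_mul, MvPolynomial.eval_C, hvb, one_mul] at h3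
      exact h3

end Pool.Agent.Q239.UZ
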