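import Pool.Agent.Q170.UZ.StmN

set_option autoImplicit false
set_option linter.unusedSectionVars false

/-! Job ZER of project UZ: zeros of a polynomial have density zero. -/

open Pool.Agent.Q170.UZ

noncomputable section

namespace Pool.Agent.Q239.UZ

open scoped Classical in
theorem t_ZER : S_ZER := by
  intro K _ _ r P hP ε hε
  obtain ⟨H₀, hH₀⟩ := exists_nat_ge ((P.totalDegree : ℝ) / ε)
  refine ⟨H₀, fun H hH => ?_⟩
  set S : Finset K := (Finset.Icc (-(H : ℤ)) H).image (fun n : ℤ => (n : K)) with hS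
  have hSc : S.card = 2 * H + 1 := by
    rw [hS, Finset.card_image_of_injective _ Int.cast_injective, Int.card_Icc]
    omega
  set F : Finset (Fin r → K) := (Fintype.piFinset fun _ : Fin r => S).filter
    (fun f => MvPolynomial.eval f P = 0) with hF
  have h1 := MvPolynomial.schwartz_zippel_totalDegree hP S
  have h2 : ({t : Fin r → ℤ | (∀ j, |t j| ≤ H) ∧
      MvPolynomial.eval (fun j => (t j : K)) P = 0}).ncard ≤ F.card := by
    rw [← Set.ncard_coe_finset F]
    refine Set.ncard_le_ncard_of_injOn (fun t => fun j => (t j : K)) ?_ ?_ (Finset.finite_toSet F)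
    · rintro t ⟨h3, h4⟩
      rw [Finset.mem_coe, hF, Finset.mem_filter]
      refine ⟨?_, h4⟩
      rw [Fintype.mem_piFinset]
      intro j
      rw [hS, Finset.mem_image]
      exact ⟨t j, Finset.mem_Icc.mpr (abs_le.mp (h3 j)), rfl⟩
    · intro a _ b _ hab
      funext j
      exact Int.cast_injective (congrFun hab j)
  have h3 : (F.card : ℝ) / (2 * H + 1) ^ r ≤ (P.totalDegree : ℝ) / (2 * H + 1) := by
    rw [hSc] at h1
    have h4 : (((F.card : ℚ≥0) / ((2 * H + 1 : ℕ) : ℚ≥0) ^ r : ℚ≥0) : ℝ) ≤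
        (((P.totalDegree : ℚ≥0) / ((2 * H + 1 : ℕ) : ℚ≥0) : ℚ≥0) : ℝ) := by
      exact_mod_cast h1
    push_cast at h4
    exact h4
  have hpos : (0 : ℝ) < (2 * (H : ℝ) + 1) := by positivity
  have hposr : (0 : ℝ) < (2 * (H : ℝ) + 1) ^ r := by positivity
  have h4 : (P.totalDegree : ℝ) / (2 * H + 1) ≤ ε := by
    rw [div_le_iff₀ hpos]
    have h5 : (P.totalDegree : ℝ) / ε ≤ H := hH₀.trans (by exact_mod_cast hH)
    rw [div_le_iff₀ hε] at h5
    nlinarith
  have h5 : (F.card : ℝ) ≤ ε * (2 * H + 1) ^ r := by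
    rw [div_le_iff₀ hposr] at h3
    exact h3.trans (mul_le_mul_of_nonneg_right h4 hposr.le)
  exact le_trans (by exact_mod_cast h2) h5

end Pool.Agent.Q239.UZ
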